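import Pool.Agent.S08064

set_option autoImplicit false

/-!
# MP_329cea_co : the assertion fails with `n₀ = 1` (and with every other threshold)
-/

namespace Pool.Agent.Results.MP_329cea_co.AllSizesFail

/-- There is `β > 0` such that for every `c` the inequality fails for some prime `p`, some nonempty
`A ⊆ ℤ/p` with `|A| < (1 - β) p / 2`, some `d` and some set `F` of forbidden pairs with all degrees
at most `d`. -/
theorem result : ∃ β : ℝ, 0 < β ∧ ∀ c : ℕ, ∃ p : ℕ, p.Prime ∧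
    ∃ (A : Finset (ZMod p)) (F : Finset (ZMod p × ZMod p)) (d : ℕ),
      1 ≤ A.card ∧ (A.card : ℝ) < (1 - β) * (p : ℝ) / 2 ∧ F ⊆ A ×ˢ A ∧
      (∀ x : ZMod p, (F.filter (fun q => q.1 = x)).card ≤ d) ∧
      (∀ x : ZMod p, (F.filter (fun q => q.2 = x)).card ≤ d) ∧
      ∀ B : Finset (ZMod p), B ⊆ A → B.card ≤ c →
        ((((A ×ˢ B) \ F).image (fun q => q.1 + q.2)).card : ℤ) ≤
          2 * (A.card : ℤ) - 2 * (d : ℤ) - 2 := by
  by_contra hcon
  apply Pool.Agent.S08064.result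
  intro β hβ
  have h1 : ¬ ∀ c : ℕ, ∃ p : ℕ, p.Prime ∧
    ∃ (A : Finset (ZMod p)) (F : Finset (ZMod p × ZMod p)) (d : ℕ),
      1 ≤ A.card ∧ (A.card : ℝ) < (1 - β) * (p : ℝ) / 2 ∧ F ⊆ A ×ˢ A ∧
      (∀ x : ZMod p, (F.filter (fun q => q.1 = x)).card ≤ d) ∧
      (∀ x : ZMod p, (F.filter (fun q => q.2 = x)).card ≤ d) ∧
      ∀ B : Finset (ZMod p), B ⊆ A → B.card ≤ c →
        ((((A ×ˢ B) \ F).image (fun q => q.1 + q.2)).card : ℤ) ≤
          2 * (A.card : ℤ) - 2 * (d : ℤ) - 2 := fun h => hcon ⟨β, hβ, h⟩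
  rw [not_forall] at h1
  obtain ⟨c, hc⟩ := h1
  refine ⟨c, 1, ?_⟩
  intro p hp A F d h2 h3 h4 h5 h6
  by_contra h7
  apply hc
  refine ⟨p, hp, A, F, d, h2, h3, h4, h5, h6, ?_⟩
  intro B hBA hBc
  by_contra h8
  exact h7 ⟨B, hBA, hBc, by omega⟩

end Pool.Agent.Results.MP_329cea_co.AllSizesFail
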